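import Pool.Agent.N173.BG.Stm

/-!
Project MSB (helper173), part GEN (helper700).
-/

set_option autoImplicit false

namespace Pool.Agent.N700.BG

open Finset

theorem t_GEN : Pool.Agent.N173.BG.S_GEN := by
  classical
  intro ι _ m c
  obtain ⟨D, hD⟩ := IsLocalization.exist_integer_multiples_of_finite (nonZeroDivisors ℤ)
    (fun p : ι × Fin m => c p.1 p.2)
  have hD0 : (D : ℤ) ≠ 0 := nonZeroDivisors.coe_ne_zero D
  have hDq : ((D : ℤ) : ℚ) ≠ 0 := by exact_mod_cast hD0
  have hC : ∀ i l, ∃ k : ℤ, (k : ℚ) = ((D : ℤ) : ℚ) * c i l := by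
    intro i l
    obtain ⟨k, hk⟩ := hD (i, l)
    refine ⟨k, ?_⟩
    simpa [Algebra.smul_def, Submonoid.smul_def] using hk
  choose C hC using hC
  set d : ℤ := (D : ℤ) with hd
  -- the generators
  set gens : ι ⊕ Fin m → (Fin m → ℤ) := Sum.elim C (fun l => Pi.single l d) with hgens
  set P : Submodule ℤ (Fin m → ℤ) := Submodule.span ℤ (Set.range gens) with hP
  obtain ⟨n, ⟨b⟩⟩ := Submodule.nonempty_basis_of_pid (Pi.basisFun ℤ (Fin m)) P
  have hn : n ≤ m := by
    have h1 : Module.finrank ℤ P = n := by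
      rw [Module.finrank_eq_card_basis b, Fintype.card_fin]
    have h2 := Submodule.finrank_le P
    rw [h1, Module.finrank_fin_fun] at h2
    exact h2
  set bb : Fin m → (Fin m → ℤ) := fun j => if h : j.1 < n then ((b ⟨j.1, h⟩ : P) : Fin m → ℤ) else 0
    with hbb
  have hbP : ∀ j, bb j ∈ P := by
    intro j
    by_cases h : j.1 < n
    · simp only [hbb, dif_pos h]
      exact (b ⟨j.1, h⟩).2
    · simp only [hbb, dif_neg h]
      exact P.zero_mem
  have hx : ∀ j, ∃ x : ι ⊕ Fin m → ℤ, ∑ s, x s • gens s = bb j := fun j =>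
    (Submodule.mem_span_range_iff_exists_fun ℤ).1 (hbP j)
  choose x hx using hx
  refine ⟨fun j i => x j (Sum.inl i), fun j l => x j (Sum.inr l), fun y hy i => ?_⟩
  have hcoef : ∀ j l, (bb j l : ℚ) = d * ((∑ i, (x j (Sum.inl i) : ℚ) * c i l) + x j (Sum.inr l)) := by
    intro j l
    have h1 : bb j l = (∑ i, x j (Sum.inl i) * C i l) + x j (Sum.inr l) * d := by
      rw [← hx j, Fintype.sum_sum_type]
      simp only [Pi.add_apply, Finset.sum_apply, Pi.smul_apply, smul_eq_mul, hgens, Sum.elim_inl,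
        Sum.elim_inr]
      congr 1
      rw [Finset.sum_eq_single l]
      · rw [Pi.single_eq_same]
      · intro k _ hk
        rw [Pi.single_eq_of_ne (Ne.symm hk), mul_zero]
      · intro h
        exact absurd (Finset.mem_univ l) h
    rw [h1]
    push_cast
    rw [mul_add, Finset.mul_sum]
    congr 1
    · apply Finset.sum_congr rfl
      intro i _
      rw [hC]
      ring
    · ring
  -- the linear form
  have hφ : ∀ j, ∃ w : ℤ, ∑ l, bb j l * y l = d * w := by
    intro j
    obtain ⟨w, hw⟩ := hy j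
    refine ⟨w, ?_⟩
    have h1 : ((∑ l, bb j l * y l : ℤ) : ℚ) = ((d * w : ℤ) : ℚ) := by
      push_cast
      rw [← hw, Finset.mul_sum]
      apply Finset.sum_congr rfl
      intro l _
      rw [hcoef j l]
      ring
    exact_mod_cast h1
  have hPd : ∀ v ∈ P, d ∣ ∑ l, v l * y l := by
    intro v hv
    have h1 : v = ∑ k, b.repr ⟨v, hv⟩ k • ((b k : P) : Fin m → ℤ) := by
      have h2 := congrArg (Submodule.subtype P) (b.sum_repr ⟨v, hv⟩)
      rw [map_sum] at h2
      simp only [map_smul, Submodule.subtype_apply] at h2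
      exact h2.symm
    rw [h1]
    have h3 : ∑ l, (∑ k, b.repr ⟨v, hv⟩ k • ((b k : P) : Fin m → ℤ)) l * y l =
        ∑ k, b.repr ⟨v, hv⟩ k * ∑ l, ((b k : P) : Fin m → ℤ) l * y l := by
      simp only [Finset.sum_apply, Pi.smul_apply, smul_eq_mul, Finset.sum_mul, Finset.mul_sum]
      rw [Finset.sum_comm]
      apply Finset.sum_congr rfl
      intro k _
      apply Finset.sum_congr rfl
      intro l _
      ring
    rw [h3]
    apply Finset.dvd_sum
    intro k _
    apply Dvd.dvd.mul_left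
    obtain ⟨w, hw⟩ := hφ ⟨k.1, lt_of_lt_of_le k.2 hn⟩
    have h4 : bb ⟨k.1, lt_of_lt_of_le k.2 hn⟩ = ((b k : P) : Fin m → ℤ) := by
      simp only [hbb]
      rw [dif_pos k.2]
    rw [h4] at hw
    exact ⟨w, hw⟩
  have hCP : C i ∈ P := Submodule.subset_span ⟨Sum.inl i, rfl⟩
  obtain ⟨w, hw⟩ := hPd _ hCP
  refine ⟨w, ?_⟩
  have h5 : (d : ℚ) * ∑ l, c i l * (y l : ℚ) = d * w := by
    have h6 : ((∑ l, C i l * y l : ℤ) : ℚ) = ((d * w : ℤ) : ℚ) := by rw [hw]
    push_cast at h6
    rw [← h6, Finset.mul_sum]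
    apply Finset.sum_congr rfl
    intro l _
    rw [hC]
    ring
  exact mul_left_cancel₀ hDq h5

end Pool.Agent.N700.BG
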